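import Pool.Agent.TH61.TRI.Main2
import Pool.Agent.TH61.TRI.Decomp

/-!
# Zariski dense orbits of triangular polynomial maps

Let `f = (f_1, …, f_N)` be a triangular polynomial self-map of affine space over the algebraic
numbers: `f_i` is a polynomial in `x_i, x_{i+1}, …, x_N`. If the degree of `f_i` in `x_i` is at
least two for every `i`, then every nonempty Zariski open set contains a Zariski dense orbit of `f`.
-/

set_option autoImplicit false

namespace Pool.Agent.Results.MP_ccfdad_ag.TriangularStrong

open Pool.Agent.TH61.TRI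

theorem dense (N : ℕ) (f : Fin N → MvPolynomial (Fin N) (AlgebraicClosure ℚ))
    (htri : ∀ i, ∀ j ∈ (f i).vars, i ≤ j) (hdeg : ∀ i, 2 ≤ (f i).degreeOf i) :
    ∃ P : Fin N → AlgebraicClosure ℚ,
        ∀ h : MvPolynomial (Fin N) (AlgebraicClosure ℚ),
          (∀ n : ℕ,
            MvPolynomial.eval
              ((fun x : Fin N → AlgebraicClosure ℚ =>
                  fun i : Fin N => MvPolynomial.eval x (f i))^[n] P) h = 0) →
          h = 0 := by
  have hf0 : ∀ i, f i ≠ 0 := by
    intro i h
    have := hdeg i
    rw [h, MvPolynomial.degreeOf_zero] at this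
    omega
  choose c hc1 hc2 hc3 using fun i => decomp (f i) i (hf0 i)
  set d : Fin N → ℕ := fun i => (f i).degreeOf i with hd
  obtain ⟨P, hP⟩ := triangular2 N d c hdeg hc3 (by
    intro i k j hj
    obtain ⟨h1, h2⟩ := hc2 i k j hj
    exact lt_of_le_of_ne (htri i j h1) (Ne.symm h2))
  refine ⟨P, fun h hh => hP h fun n => ?_⟩
  have key : ∀ n, orb (fun _ => 0) (fun i => d i + 1) c P n =
      (fun x : Fin N → AlgebraicClosure ℚ =>
      fun i : Fin N => MvPolynomial.eval x (f i))^[n] P := by
    intro n
    induction n with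
    | zero => rfl
    | succ n ih =>
      rw [Function.iterate_succ_apply', ← ih]
      funext i
      show (gp (fun _ => 0) (fun i => d i + 1) c i
        (orb (fun _ => 0) (fun i => d i + 1) c P n)).eval
          (orb (fun _ => 0) (fun i => d i + 1) c P n i) =
        MvPolynomial.eval (orb (fun _ => 0) (fun i => d i + 1) c P n) (f i)
      conv_rhs => rw [hc1 i]
      unfold gp
      rw [Polynomial.C_0, zero_mul, zero_add, Polynomial.eval_finsetSum, map_sum]
      refine Finset.sum_congr rfl fun k _ => ?_
      rw [Polynomial.eval_mul, Polynomial.eval_C, Polynomial.eval_pow, Polynomial.eval_X, map_mul,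
        map_pow, MvPolynomial.eval_X]
  rw [key]
  exact hh n

/-- If `f i` involves only the variables `x_j` with `i ≤ j`, and has degree at least two in `x_i`,
for every `i`, then for every nonzero polynomial `B` some point of affine space has an orbit under
`f = (f i)` on which `B` vanishes nowhere and on which no nonzero polynomial vanishes
identically. -/
theorem result :
    ∀ (N : ℕ) (f : Fin N → MvPolynomial (Fin N) (AlgebraicClosure ℚ)),
      (∀ i, ∀ j ∈ (f i).vars, i ≤ j) →
      (∀ i, 2 ≤ (f i).degreeOf i) →
      ∀ B : MvPolynomial (Fin N) (AlgebraicClosure ℚ), B ≠ 0 →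
      ∃ P : Fin N → AlgebraicClosure ℚ,
        (∀ n : ℕ,
            MvPolynomial.eval
              ((fun x : Fin N → AlgebraicClosure ℚ =>
                  fun i : Fin N => MvPolynomial.eval x (f i))^[n] P) B ≠ 0) ∧
        ∀ h : MvPolynomial (Fin N) (AlgebraicClosure ℚ),
          (∀ n : ℕ,
            MvPolynomial.eval
              ((fun x : Fin N → AlgebraicClosure ℚ =>
                  fun i : Fin N => MvPolynomial.eval x (f i))^[n] P) h = 0) →
          h = 0 := by
  classical
  intro N f htri hdeg B hB
  have hinj : Function.Injective (Fin.succ : Fin N → Fin (N + 1)) := Fin.succ_injective N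
  have hB' : MvPolynomial.rename Fin.succ B ≠ (0 : MvPolynomial (Fin (N + 1)) _) := by
    intro h
    apply hB
    apply MvPolynomial.rename_injective _ hinj
    rw [h, map_zero]
  -- the extended map
  set f' : Fin (N + 1) → MvPolynomial (Fin (N + 1)) (AlgebraicClosure ℚ) :=
    Fin.cons (MvPolynomial.rename Fin.succ B * MvPolynomial.X 0 ^ 2)
      (fun i => MvPolynomial.rename Fin.succ (f i)) with hf'
  obtain ⟨P', hP'⟩ := dense (N + 1) f' (by
    intro i
    refine Fin.cases ?_ (fun i => ?_) i
    · intro j _
      exact Fin.zero_le j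
    · intro j hj
      rw [hf', Fin.cons_succ] at hj
      obtain ⟨l, hl, rfl⟩ := Finset.mem_image.1 (MvPolynomial.vars_rename _ _ hj)
      exact Fin.succ_le_succ_iff.2 (htri i l hl)) (by
    intro i
    refine Fin.cases ?_ (fun i => ?_) i
    · rw [hf', Fin.cons_zero, MvPolynomial.degreeOf_mul_eq hB' (pow_ne_zero _
        (MvPolynomial.X_ne_zero 0)), MvPolynomial.degreeOf_pow_eq _ _ _
        (MvPolynomial.X_ne_zero 0), MvPolynomial.degreeOf_X, if_pos rfl]
      omega
    · rw [hf', Fin.cons_succ, MvPolynomial.degreeOf_rename_of_injective hinj]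
      exact hdeg i)
  set P : Fin N → AlgebraicClosure ℚ := fun i => P' i.succ with hP
  set F : (Fin N → AlgebraicClosure ℚ) → (Fin N → AlgebraicClosure ℚ) :=
    fun x i => MvPolynomial.eval x (f i) with hF
  set F' : (Fin (N + 1) → AlgebraicClosure ℚ) → (Fin (N + 1) → AlgebraicClosure ℚ) :=
    fun x i => MvPolynomial.eval x (f' i) with hF'
  have htail : ∀ n, (fun i : Fin N => F'^[n] P' i.succ) = F^[n] P := by
    intro n
    induction n with
    | zero => rfl
    | succ n ih =>
      rw [Function.iterate_succ_apply', Function.iterate_succ_apply', ← ih]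
      funext i
      show MvPolynomial.eval _ (f' i.succ) = MvPolynomial.eval _ (f i)
      rw [hf', Fin.cons_succ, MvPolynomial.eval_rename]
      rfl
  have hhead : ∀ n, F'^[n + 1] P' 0 = MvPolynomial.eval (F^[n] P) B * (F'^[n] P' 0) ^ 2 := by
    intro n
    rw [Function.iterate_succ_apply']
    show MvPolynomial.eval _ (f' 0) = _
    rw [hf', Fin.cons_zero, map_mul, map_pow, MvPolynomial.eval_X, MvPolynomial.eval_rename,
      ← htail]
    rfl
  refine ⟨P, fun n hn => ?_, fun h hh => ?_⟩
  · have hz : ∀ m, F'^[n + 1 + m] P' 0 = 0 := by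
      intro m
      induction m with
      | zero => rw [add_zero, hhead, hn, zero_mul]
      | succ m ih => rw [← add_assoc, hhead, ih]; ring
    have h0 := hP' (MvPolynomial.X 0 * ∏ m ∈ Finset.range (n + 1),
      (MvPolynomial.X 0 - MvPolynomial.C (F'^[m] P' 0))) (by
      intro m
      show MvPolynomial.eval (F'^[m] P') _ = 0
      rw [map_mul, MvPolynomial.eval_X, map_prod]
      rcases lt_or_ge m (n + 1) with hm | hm
      · rw [Finset.prod_eq_zero (Finset.mem_range.2 hm), mul_zero]
        rw [map_sub, MvPolynomial.eval_X, MvPolynomial.eval_C, sub_self]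
      · obtain ⟨l, rfl⟩ := Nat.exists_eq_add_of_le hm
        rw [hz, zero_mul])
    rcases mul_eq_zero.1 h0 with h1 | h1
    · exact MvPolynomial.X_ne_zero 0 h1
    · obtain ⟨m, -, h2⟩ := Finset.prod_eq_zero_iff.1 h1
      have h3 := congrArg (MvPolynomial.eval (fun _ => F'^[m] P' 0 + 1)) h2
      rw [map_sub, MvPolynomial.eval_X, MvPolynomial.eval_C, map_zero] at h3
      simp at h3
  · apply MvPolynomial.rename_injective _ hinj
    rw [map_zero]
    apply hP'
    intro n
    show MvPolynomial.eval (F'^[n] P') _ = 0
    rw [MvPolynomial.eval_rename]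
    have := hh n
    rw [← htail n] at this
    exact this

end Pool.Agent.Results.MP_ccfdad_ag.TriangularStrong
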